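import Mathlib

set_option autoImplicit false

/-! # Project NG (T): even entire functions, factorization in a disc -/

namespace Pool.Agent.J4H8.NG

open Complex Filter Topology Metric

/-- product of the factors `z² - a²` -/
noncomputable def Pq (s : Multiset ℂ) (z : ℂ) : ℂ := (s.map fun a => z ^ 2 - a ^ 2).prod

theorem Pq_zero (z : ℂ) : Pq 0 z = 1 := by simp [Pq]

theorem Pq_cons (a : ℂ) (s : Multiset ℂ) (z : ℂ) : Pq (a ::ₘ s) z = (z ^ 2 - a ^ 2) * Pq s z := by simp [Pq]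

theorem Pq_add (s t : Multiset ℂ) (z : ℂ) : Pq (s + t) z = Pq s z * Pq t z := by simp [Pq]

theorem Pq_diff (s : Multiset ℂ) : Differentiable ℂ (Pq s) := by
  induction s using Multiset.induction_on with
  | empty =>
    have : Pq 0 = fun _ => 1 := by funext z; exact Pq_zero z
    rw [this]; exact differentiable_const _
  | cons a s ih =>
    have : Pq (a ::ₘ s) = fun z => (z ^ 2 - a ^ 2) * Pq s z := by funext z; exact Pq_cons a s z
    rw [this]
    exact ((differentiable_id.pow 2).sub_const _).mul ih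

theorem Pq_ge (s : Multiset ℂ) {R : ℝ} (hR : 0 < R) (hs : ∀ a ∈ s, ‖a‖ < R) {z : ℂ}
    (hz : ‖z‖ = 4 * R) : (15 * R ^ 2) ^ (Multiset.card s) ≤ ‖Pq s z‖ := by
  induction s using Multiset.induction_on with
  | empty => simp [Pq]
  | cons a s ih =>
      rw [Multiset.card_cons, Pq_cons, norm_mul, pow_succ, mul_comm]
      have h1 := ih (fun b hb => hs b (Multiset.mem_cons_of_mem hb))
      have h2 := hs a (Multiset.mem_cons_self a s)
      have h3 : 15 * R ^ 2 ≤ ‖z ^ 2 - a ^ 2‖ := by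
        have h4 := norm_sub_norm_le (z ^ 2) (a ^ 2)
        rw [norm_pow, norm_pow, hz] at h4
        have h5 : ‖a‖ ^ 2 ≤ R ^ 2 := pow_le_pow_left₀ (norm_nonneg _) h2.le 2
        nlinarith
      exact mul_le_mul h3 h1 (by positivity) (norm_nonneg _)

theorem Pq_zero_le (s : Multiset ℂ) {R : ℝ} (hs : ∀ a ∈ s, ‖a‖ < R) : ‖Pq s 0‖ ≤ (R ^ 2) ^ (Multiset.card s) := by
  induction s using Multiset.induction_on with
  | empty => simp [Pq]
  | cons a s ih =>
      rw [Multiset.card_cons, Pq_cons, norm_mul, pow_succ, mul_comm]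
      have h1 := ih (fun b hb => hs b (Multiset.mem_cons_of_mem hb))
      have h2 := hs a (Multiset.mem_cons_self a s)
      have h3 : ‖(0 : ℂ) ^ 2 - a ^ 2‖ ≤ R ^ 2 := by
        rw [zero_pow (by norm_num), zero_sub, norm_neg, norm_pow]
        exact pow_le_pow_left₀ (norm_nonneg _) h2.le 2
      exact mul_le_mul h1 h3 (norm_nonneg _) (pow_nonneg (sq_nonneg R) _)

/-- factorization of `f` with the zeros `± a`, `a ∈ s`, in the disc of radius `R` -/
structure FacE (f : ℂ → ℂ) (R : ℝ) (s : Multiset ℂ) (k : ℂ → ℂ) : Prop where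
  rts : ∀ a ∈ s, ‖a‖ < R
  diff : Differentiable ℂ k
  eq : ∀ z : ℂ, f z = Pq s z * k z

theorem FacE.bound {f k : ℂ → ℂ} {R M : ℝ} {s : Multiset ℂ} (H : FacE f R s k) (hR : 0 < R)
    (hM : ∀ z : ℂ, ‖z‖ = 4 * R → ‖f z‖ ≤ M) (z : ℂ) (hz : ‖z‖ ≤ 4 * R) :
    (15 * R ^ 2) ^ (Multiset.card s) * ‖k z‖ ≤ M := by
  have hpos : 0 < (15 * R ^ 2) ^ (Multiset.card s) := by positivity
  have key : ‖k z‖ ≤ M / (15 * R ^ 2) ^ (Multiset.card s) := by
    apply Complex.norm_le_of_forall_mem_frontier_norm_le (U := ball (0 : ℂ) (4 * R)) isBounded_ball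
      H.diff.diffContOnCl
    · intro w hw
      rw [frontier_ball (0 : ℂ) (by positivity)] at hw
      have hw' : ‖w‖ = 4 * R := by simpa using hw
      rw [le_div_iff₀ hpos, mul_comm]
      have h1 := hM w hw'
      rw [H.eq w, norm_mul] at h1
      have h2 := Pq_ge s hR H.rts hw'
      exact (mul_le_mul_of_nonneg_right h2 (norm_nonneg _)).trans h1
    · rw [closure_ball (0 : ℂ) (by positivity)]
      simpa using hz
  rw [le_div_iff₀ hpos] at key
  linarith

theorem FacE.norm_zero {f k : ℂ → ℂ} {R : ℝ} {s : Multiset ℂ} (H : FacE f R s k) :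
    ‖f 0‖ ≤ (R ^ 2) ^ (Multiset.card s) * ‖k 0‖ := by
  rw [H.eq 0, norm_mul]
  exact mul_le_mul_of_nonneg_right (Pq_zero_le s H.rts) (norm_nonneg _)

theorem FacE.degree {f k : ℂ → ℂ} {R M : ℝ} {s : Multiset ℂ} (H : FacE f R s k) (hR : 0 < R)
    (hM : ∀ z : ℂ, ‖z‖ = 4 * R → ‖f z‖ ≤ M) : 15 ^ (Multiset.card s) * ‖f 0‖ ≤ M := by
  have h1 := H.bound hR hM 0 (by simp; positivity)
  have h2 := H.norm_zero
  calc (15 : ℝ) ^ (Multiset.card s) * ‖f 0‖ ≤ 15 ^ (Multiset.card s) * ((R ^ 2) ^ (Multiset.card s) * ‖k 0‖) := by gcongr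
    _ = (15 * R ^ 2) ^ (Multiset.card s) * ‖k 0‖ := by rw [mul_pow]; ring
    _ ≤ M := h1

theorem dslope_spec {h : ℂ → ℂ} (hd : Differentiable ℂ h) {a : ℂ} (ha : h a = 0) :
    Differentiable ℂ (dslope h a) ∧ ∀ z, h z = (z - a) * dslope h a z := by
  refine ⟨?_, ?_⟩
  · rw [← differentiableOn_univ] at hd ⊢
    exact (Complex.differentiableOn_dslope univ_mem).2 hd
  · intro z
    by_cases hz : z = a
    · rw [hz, ha, sub_self, zero_mul]
    · rw [dslope_of_ne _ hz, slope_def_field, ha, sub_zero]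
      field_simp [sub_ne_zero.2 hz]

/-- even functions -/
theorem FacE.step {f k : ℂ → ℂ} {R : ℝ} {s : Multiset ℂ} (H : FacE f R s k) (he : ∀ z, k (-z) = k z) (hk0 : k 0 ≠ 0)
    {a : ℂ} (ha : k a = 0) (haR : ‖a‖ < R) :
    ∃ k' : ℂ → ℂ, FacE f R (a ::ₘ s) k' ∧ ∀ z, k' (-z) = k' z := by
  have ha0 : a ≠ 0 := by
    rintro rfl
    exact hk0 ha
  obtain ⟨d1, e1⟩ := dslope_spec H.diff ha
  set k1 := dslope k a with hk1
  have hk1a : k1 (-a) = 0 := by
    have h1 := e1 (-a)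
    rw [he, ha] at h1
    have h2 : (-a - a) ≠ 0 := by
      intro h
      apply ha0
      have : (2 : ℂ) * a = 0 := by linear_combination -h
      simpa using this
    rcases mul_eq_zero.1 h1.symm with h3 | h3
    · exact absurd h3 h2
    · exact h3
  obtain ⟨d2, e2⟩ := dslope_spec d1 hk1a
  set k2 := dslope k1 (-a) with hk2
  have e3 : ∀ z, k z = (z ^ 2 - a ^ 2) * k2 z := by
    intro z
    rw [e1 z, e2 z]
    ring
  refine ⟨k2, ⟨?_, d2, ?_⟩, ?_⟩
  · intro b hb
    rcases Multiset.mem_cons.1 hb with rfl | hb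
    · exact haR
    · exact H.rts b hb
  · intro z
    rw [H.eq z, Pq_cons, e3 z]
    ring
  · have hdense : Dense ({a, -a}ᶜ : Set ℂ) := ((Set.toFinite ({a, -a} : Set ℂ)).countable).dense_compl ℂ
    have hc1 : Continuous (fun z => k2 (-z)) := d2.continuous.comp continuous_neg
    have h := hc1.ext_on hdense d2.continuous (by
      intro z hz
      have h1 := e3 z
      have h2 := e3 (-z)
      rw [he] at h2
      have h3 : z ^ 2 - a ^ 2 ≠ 0 := by
        intro hcon
        apply hz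
        have : (z - a) * (z + a) = 0 := by linear_combination hcon
        rcases mul_eq_zero.1 this with h4 | h4
        · left; linear_combination h4
        · right
          show z = -a
          linear_combination h4
      have h4 : (z ^ 2 - a ^ 2) * k2 (-z) = (z ^ 2 - a ^ 2) * k2 z := by
        rw [← h1, h2]; ring
      exact mul_left_cancel₀ h3 h4)
    intro z
    exact congrFun h z

theorem exists_facE {f : ℂ → ℂ} (hd : Differentiable ℂ f) (he : ∀ z, f (-z) = f z) (h0 : f 0 ≠ 0) {R M : ℝ} (hR : 0 < R)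
    (hM : ∀ z : ℂ, ‖z‖ = 4 * R → ‖f z‖ ≤ M) :
    ∃ (s : Multiset ℂ) (k : ℂ → ℂ), FacE f R s k ∧ (∀ z, k (-z) = k z) ∧ ∀ z : ℂ, ‖z‖ < R → k z ≠ 0 := by
  set S : Set ℕ := {n | ∃ (s : Multiset ℂ) (k : ℂ → ℂ), FacE f R s k ∧ (∀ z, k (-z) = k z) ∧ Multiset.card s = n} with hS
  have hne : S.Nonempty := by
    refine ⟨0, 0, f, ⟨?_, hd, ?_⟩, he, rfl⟩
    · intro a ha
      simp at ha
    · intro z
      rw [Pq_zero, one_mul]
  have hbdd : BddAbove S := by
    obtain ⟨k, hk⟩ : ∃ k : ℕ, M / ‖f 0‖ < 15 ^ k := pow_unbounded_of_one_lt _ (by norm_num)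
    refine ⟨k, ?_⟩
    rintro n ⟨s, h, H, _, rfl⟩
    have h1 := H.degree hR hM
    have h2 : (15 : ℝ) ^ (Multiset.card s) ≤ M / ‖f 0‖ := by
      rw [le_div_iff₀ (norm_pos_iff.2 h0)]; exact h1
    have h3 : (15 : ℝ) ^ (Multiset.card s) < 15 ^ k := h2.trans_lt hk
    exact ((pow_lt_pow_iff_right₀ (by norm_num)).1 h3).le
  obtain ⟨s, k, H, hke, hs⟩ := Nat.sSup_mem hne hbdd
  refine ⟨s, k, H, hke, ?_⟩
  intro z hz hz0
  have hk0 : k 0 ≠ 0 := by
    intro hcon
    apply h0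
    rw [H.eq 0, hcon, mul_zero]
  obtain ⟨k', H', he'⟩ := H.step hke hk0 hz0 hz
  have h1 : Multiset.card (z ::ₘ s) ∈ S := ⟨_, k', H', he', rfl⟩
  have h2 := le_csSup hbdd h1
  rw [Multiset.card_cons, hs] at h2
  omega

/-- logarithm of a zero-free even function on a disc -/
theorem log_even {h : ℂ → ℂ} {R M : ℝ} (hR : 0 < R) (hM : 0 < M) (hd : Differentiable ℂ h) (he : ∀ z, h (-z) = h z)
    (hne : ∀ z : ℂ, ‖z‖ < R → h z ≠ 0)
    (hb : ∀ z : ℂ, ‖z‖ < R → ‖h z‖ ≤ ‖h 0‖ * Real.exp M) {z : ℂ} (hz : ‖z‖ < R / 2) :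
    ‖h z‖ ≤ ‖h 0‖ * Real.exp (16 * M * ‖z‖ ^ 2 / R ^ 2) := by
  have h0 : h 0 ≠ 0 := hne 0 (by simpa using hR)
  have hq : DifferentiableOn ℂ (fun z => deriv h z / h z) (ball 0 R) := by
    intro z hz
    rw [mem_ball_zero_iff] at hz
    exact ((hd.deriv z).div (hd z) (hne z hz)).differentiableWithinAt
  obtain ⟨φ, hφ0, hφ⟩ := hq.isExactOn_ball.with_val_at 0 0
  have hexp : ∀ z ∈ ball (0:ℂ) R, h z = h 0 * exp (φ z) := by
    have hk : ∀ z ∈ ball (0:ℂ) R, HasDerivAt (fun z => h z * exp (-φ z)) 0 z := by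
      intro z hz
      have hz' : ‖z‖ < R := by rwa [mem_ball_zero_iff] at hz
      have := (hd z).hasDerivAt.mul ((hφ z hz).neg.cexp)
      refine this.congr_deriv ?_
      have := hne z hz'
      field_simp
      ring
    intro z hz
    have hc : (fun z => h z * exp (-φ z)) z = (fun z => h z * exp (-φ z)) 0 := by
      apply (convex_ball (0:ℂ) R).is_const_of_fderivWithin_eq_zero (𝕜 := ℂ)
        (fun w hw => (hk w hw).differentiableAt.differentiableWithinAt) _ hz
        (mem_ball_self hR)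
      intro w hw
      rw [fderivWithin_of_isOpen isOpen_ball hw]
      have := (hk w hw).hasFDerivAt.fderiv
      rw [this]
      ext; simp
    simp only [hφ0, neg_zero, exp_zero, mul_one] at hc
    rw [← hc, mul_assoc, ← exp_add]; simp
  have hmaps : Set.MapsTo φ (ball 0 R) {z | z.re ≤ M} := by
    intro z hz
    show (φ z).re ≤ M
    have hz' : ‖z‖ < R := by rwa [mem_ball_zero_iff] at hz
    have h1 := hb z hz'
    rw [hexp z hz, norm_mul, Complex.norm_exp] at h1
    have h2 := le_of_mul_le_mul_left h1 (norm_pos_iff.2 h0)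
    exact Real.exp_le_exp.1 h2
  have hφd : DifferentiableOn ℂ φ (ball 0 R) := fun z hz =>
    (hφ z hz).differentiableAt.differentiableWithinAt
  have hbc : ∀ z ∈ ball (0 : ℂ) (R / 2), ‖φ z‖ ≤ 2 * M := by
    intro z hz
    rw [mem_ball_zero_iff] at hz
    have h1 := borelCaratheodory_zero hM hφd hmaps hR (mem_ball_zero_iff.2 (by linarith : ‖z‖ < R)) hφ0
    refine h1.trans ?_
    rw [div_le_iff₀ (by linarith)]
    nlinarith [norm_nonneg z]
  have hR2 : 0 < R / 2 := by positivity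
  have hsub : ball (0 : ℂ) (R / 2) ⊆ ball 0 R := ball_subset_ball (by linarith)
  have hφd2 : DifferentiableOn ℂ φ (ball 0 (R / 2)) := hφd.mono hsub
  -- the derivative at 0
  have hd0 : deriv φ 0 = 0 := by
    have h1 := (hφ 0 (mem_ball_self hR)).deriv
    rw [h1]
    have h2 : deriv h 0 = 0 := by
      have h3 : (fun z => h (-z)) = h := by funext z; exact he z
      have h4 := deriv_comp_neg h 0
      rw [h3, neg_zero] at h4
      have : (2 : ℂ) * deriv h 0 = 0 := by linear_combination h4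
      simpa using this
    rw [h2, zero_div]
  have hm1 : Set.MapsTo φ (ball 0 (R / 2)) (closedBall (φ 0) (3 * M)) := by
    intro z hz
    rw [hφ0, mem_closedBall_zero_iff]
    have := hbc z hz
    linarith
  have hs1 : ∀ z ∈ ball (0 : ℂ) (R / 2), ‖dslope φ 0 z‖ ≤ 3 * M / (R / 2) := fun z hz =>
    Complex.norm_dslope_le_div_of_mapsTo_ball hφd2 hm1 hz
  have hd1 : DifferentiableOn ℂ (dslope φ 0) (ball 0 (R / 2)) :=
    (Complex.differentiableOn_dslope (isOpen_ball.mem_nhds (mem_ball_self hR2))).2 hφd2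
  have hm2 : Set.MapsTo (dslope φ 0) (ball 0 (R / 2)) (closedBall (dslope φ 0 0) (4 * M / (R / 2))) := by
    intro z hz
    rw [dslope_same, hd0, mem_closedBall_zero_iff]
    refine (hs1 z hz).trans ?_
    apply div_le_div_of_nonneg_right _ hR2.le
    linarith
  have hz2 : z ∈ ball (0 : ℂ) (R / 2) := mem_ball_zero_iff.2 hz
  have hs2 := Complex.norm_dslope_le_div_of_mapsTo_ball hd1 hm2 hz2
  have hφz : ‖φ z‖ ≤ 16 * M * ‖z‖ ^ 2 / R ^ 2 := by
    by_cases hz0 : z = 0
    · rw [hz0, hφ0]; simp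
    · have e1 : φ z = z * dslope φ 0 z := by
        rw [dslope_of_ne _ hz0, slope_def_field, hφ0, sub_zero, sub_zero]
        field_simp
      have e2 : dslope φ 0 z = z * dslope (dslope φ 0) 0 z := by
        rw [dslope_of_ne (dslope φ 0) hz0, slope_def_field, dslope_same, hd0, sub_zero, sub_zero]
        field_simp
      rw [e1, e2, norm_mul, norm_mul]
      calc ‖z‖ * (‖z‖ * ‖dslope (dslope φ 0) 0 z‖) ≤ ‖z‖ * (‖z‖ * (4 * M / (R / 2) / (R / 2))) := by gcongr
        _ = 16 * M * ‖z‖ ^ 2 / R ^ 2 := by field_simp; ring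
  rw [hexp z (hsub hz2), norm_mul, Complex.norm_exp]
  apply mul_le_mul_of_nonneg_left _ (norm_nonneg _)
  exact Real.exp_le_exp.2 ((Complex.re_le_norm _).trans hφz)

end Pool.Agent.J4H8.NG
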