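import Pool.Agent.J4H4.NG.Stm
import Pool.Agent.J4H8.NG.T0
import Pool.Agent.J4H8.DNH.H

set_option autoImplicit false

/-! # Project NG (T): the number of all zeros -/

namespace Pool.Agent.J4H8.NG

open Complex Filter Topology Metric

theorem Pq_small (s : Multiset ℂ) {ρ : ℝ} (hs : ∀ a ∈ s, ‖a‖ < ρ) :
    ‖Pq s (I * ((1000 * ρ : ℝ) : ℂ))‖ ≤ (1000001 * ρ ^ 2) ^ (Multiset.card s) := by
  induction s using Multiset.induction_on with
  | empty => simp [Pq]
  | cons a s ih =>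
      rw [Multiset.card_cons, Pq_cons, norm_mul, pow_succ, mul_comm]
      have h1 := ih (fun b hb => hs b (Multiset.mem_cons_of_mem hb))
      have h2 := hs a (Multiset.mem_cons_self a s)
      have h3 : ‖(I * ((1000 * ρ : ℝ) : ℂ)) ^ 2 - a ^ 2‖ ≤ 1000001 * ρ ^ 2 := by
        refine (norm_sub_le _ _).trans ?_
        rw [norm_pow, norm_pow, norm_mul, norm_I, one_mul, Complex.norm_real, Real.norm_eq_abs, sq_abs]
        have h5 : ‖a‖ ^ 2 ≤ ρ ^ 2 := pow_le_pow_left₀ (norm_nonneg _) h2.le 2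
        nlinarith
      exact mul_le_mul h1 h3 (norm_nonneg _) (pow_nonneg (by positivity) _)

theorem Pq_large (s : Multiset ℂ) {ρ : ℝ} (hρ : 0 < ρ) (hs : ∀ a ∈ s, ρ ≤ ‖a‖) :
    ‖Pq s (I * ((1000 * ρ : ℝ) : ℂ))‖ ≤ 1000001 ^ (Multiset.card s) * ‖Pq s 0‖ := by
  induction s using Multiset.induction_on with
  | empty => simp [Pq]
  | cons a s ih =>
      rw [Multiset.card_cons, Pq_cons, Pq_cons, norm_mul, norm_mul, pow_succ]
      have h1 := ih (fun b hb => hs b (Multiset.mem_cons_of_mem hb))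
      have h2 := hs a (Multiset.mem_cons_self a s)
      have h3 : ‖(I * ((1000 * ρ : ℝ) : ℂ)) ^ 2 - a ^ 2‖ ≤ 1000001 * ‖(0 : ℂ) ^ 2 - a ^ 2‖ := by
        refine (norm_sub_le _ _).trans ?_
        rw [zero_pow (by norm_num), zero_sub, norm_neg, norm_pow, norm_pow, norm_mul, norm_I, one_mul, Complex.norm_real,
          Real.norm_eq_abs, sq_abs]
        have h5 : ρ ^ 2 ≤ ‖a‖ ^ 2 := pow_le_pow_left₀ hρ.le h2 2
        nlinarith
      calc ‖(I * ((1000 * ρ : ℝ) : ℂ)) ^ 2 - a ^ 2‖ * ‖Pq s (I * ((1000 * ρ : ℝ) : ℂ))‖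
          ≤ (1000001 * ‖(0 : ℂ) ^ 2 - a ^ 2‖) * (1000001 ^ (Multiset.card s) * ‖Pq s 0‖) :=
            mul_le_mul h3 h1 (norm_nonneg _) (by positivity)
        _ = 1000001 ^ (Multiset.card s) * 1000001 * (‖(0 : ℂ) ^ 2 - a ^ 2‖ * ‖Pq s 0‖) := by ring

theorem main_ineq {f k : ℂ → ℂ} {R ρ A E : ℝ} {s : Multiset ℂ} (H : FacE f R s k) (hρ : 0 < ρ)
    (hA : ∀ z : ℂ, ‖z‖ = 4 * ρ → ‖f z‖ ≤ Real.exp A)
    (hk : ‖k (I * ((1000 * ρ : ℝ) : ℂ))‖ ≤ ‖k 0‖ * Real.exp E) :
    ‖f (I * ((1000 * ρ : ℝ) : ℂ))‖ ≤ 1000001 ^ (Multiset.card s) * (Real.exp A * Real.exp E) := by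
  classical
  set s1 := s.filter (fun a => ‖a‖ < ρ) with hs1
  set s2 := s.filter (fun a => ¬ ‖a‖ < ρ) with hs2
  have hs : s1 + s2 = s := Multiset.filter_add_not _ _
  have hc : Multiset.card s = Multiset.card s1 + Multiset.card s2 := by rw [← hs, Multiset.card_add]
  have H1 : FacE f ρ s1 (fun z => Pq s2 z * k z) := by
    refine ⟨?_, (Pq_diff s2).mul H.diff, ?_⟩
    · intro a ha
      exact (Multiset.mem_filter.1 ha).2
    · intro z
      rw [H.eq z, ← hs, Pq_add, mul_assoc]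
  have h1 := H1.bound hρ hA 0 (by simp; positivity)
  rw [norm_mul] at h1
  have h2 := Pq_small s1 (ρ := ρ) (fun a ha => (Multiset.mem_filter.1 ha).2)
  have h3 := Pq_large s2 hρ (fun a ha => not_lt.1 (Multiset.mem_filter.1 ha).2)
  rw [H.eq, norm_mul]
  nth_rewrite 1 [← hs]
  rw [Pq_add, norm_mul, hc, pow_add]
  have h4 : (ρ ^ 2) ^ (Multiset.card s1) * (‖Pq s2 0‖ * ‖k 0‖) ≤ Real.exp A := by
    refine le_trans ?_ h1
    apply mul_le_mul_of_nonneg_right _ (by positivity)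
    apply pow_le_pow_left₀ (by positivity)
    nlinarith [sq_nonneg ρ]
  calc ‖Pq s1 (I * ((1000 * ρ : ℝ) : ℂ))‖ * ‖Pq s2 (I * ((1000 * ρ : ℝ) : ℂ))‖ * ‖k (I * ((1000 * ρ : ℝ) : ℂ))‖
      ≤ (1000001 * ρ ^ 2) ^ (Multiset.card s1) * (1000001 ^ (Multiset.card s2) * ‖Pq s2 0‖) * (‖k 0‖ * Real.exp E) := by
        apply mul_le_mul (mul_le_mul h2 h3 (norm_nonneg _) (by positivity)) hk (norm_nonneg _) (by positivity)
    _ = 1000001 ^ (Multiset.card s1) * 1000001 ^ (Multiset.card s2) *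
        ((ρ ^ 2) ^ (Multiset.card s1) * (‖Pq s2 0‖ * ‖k 0‖) * Real.exp E) := by rw [mul_pow]; ring
    _ ≤ 1000001 ^ (Multiset.card s1) * 1000001 ^ (Multiset.card s2) * (Real.exp A * Real.exp E) := by
        gcongr

theorem count {f : ℂ → ℂ} (hd : Differentiable ℂ f) (he : ∀ z, f (-z) = f z) (h0 : f 0 ≠ 0) {R₀ : ℝ} (hR₀ : 2 ≤ R₀)
    (hup : ∀ z : ℂ, R₀ ≤ ‖z‖ → ‖f z‖ ≤ Real.exp (‖z‖ * Real.log ‖z‖))
    (hlo : ∀ y : ℝ, R₀ ≤ y → Real.exp (y / 5 * Real.log y) ≤ ‖f (I * y)‖) :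
    ∃ R₁ : ℝ, 2 ≤ R₁ ∧ ∀ R : ℝ, R₁ ≤ R → ∃ (s : Multiset ℂ) (k : ℂ → ℂ), FacE f R s k ∧ (∀ z : ℂ, ‖z‖ < R → k z ≠ 0) ∧
      1 / 100000 * R * Real.log R ≤ 2 * (Multiset.card s : ℝ) := by
  set L₀ := |Real.log ‖f 0‖| with hL₀
  have hf0 : 0 < ‖f 0‖ := norm_pos_iff.2 h0
  have hL0 : 0 ≤ L₀ := abs_nonneg _
  refine ⟨max (1000000 * R₀) (max (Real.exp 50) (L₀ + 1)), ?_, ?_⟩
  · refine le_trans ?_ (le_max_left _ _)
    linarith
  intro R hR
  have r1 : 1000000 * R₀ ≤ R := (le_max_left _ _).trans hR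
  have r2 : Real.exp 50 ≤ R := ((le_max_left _ _).trans (le_max_right _ _)).trans hR
  have r3 : L₀ + 1 ≤ R := ((le_max_right _ _).trans (le_max_right _ _)).trans hR
  have hRpos : 0 < R := lt_of_lt_of_le (Real.exp_pos _) r2
  set ρ := R / 1000000 with hρdef
  have hρR : R = 1000000 * ρ := by rw [hρdef]; ring
  have hρR₀ : R₀ ≤ ρ := by rw [hρdef, le_div_iff₀ (by norm_num)]; linarith
  have hρ : 0 < ρ := by linarith
  set A := 4 * R * Real.log (4 * R) with hA
  have hM : ∀ z : ℂ, ‖z‖ = 4 * R → ‖f z‖ ≤ Real.exp A := by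
    intro z hz
    have := hup z (by rw [hz]; linarith)
    rw [hz] at this
    exact this
  obtain ⟨s, k, H, hke, hk⟩ := exists_facE hd he h0 hRpos hM
  refine ⟨s, k, H, hk, ?_⟩
  set n := Multiset.card s with hn
  have hA0 : 0 ≤ A := by
    rw [hA]
    have : 0 ≤ Real.log (4 * R) := Real.log_nonneg (by linarith)
    positivity
  set M' := A + L₀ + 1 with hM'
  have hM'0 : 0 < M' := by linarith
  have hbd : ∀ z : ℂ, ‖z‖ < R → ‖k z‖ ≤ ‖k 0‖ * Real.exp M' := by
    intro z hz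
    have h1 := H.bound hRpos hM z (by linarith)
    have h2 := H.norm_zero
    rw [← hn] at h1 h2
    have h3 : 0 < (R ^ 2) ^ n := by positivity
    have h4 : 1 / ‖f 0‖ ≤ Real.exp L₀ := by
      rw [one_div, ← Real.exp_log (inv_pos.2 hf0), Real.log_inv]
      exact Real.exp_le_exp.2 (neg_le_abs _)
    have h6 : ‖f 0‖ * (1 / ‖f 0‖) = 1 := by field_simp
    have h5 : (R ^ 2) ^ n * ‖k z‖ ≤ Real.exp A := by
      refine le_trans ?_ h1
      apply mul_le_mul_of_nonneg_right _ (norm_nonneg _)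
      apply pow_le_pow_left₀ (by positivity)
      nlinarith [sq_nonneg R]
    have h7 : (R ^ 2) ^ n * ‖k z‖ ≤ (R ^ 2) ^ n * (‖k 0‖ * Real.exp M') := by
      calc (R ^ 2) ^ n * ‖k z‖ ≤ Real.exp A := h5
        _ = (‖f 0‖ * (1 / ‖f 0‖)) * Real.exp A := by rw [h6, one_mul]
        _ ≤ (((R ^ 2) ^ n * ‖k 0‖) * Real.exp L₀) * Real.exp A := by gcongr
        _ = (R ^ 2) ^ n * (‖k 0‖ * Real.exp (A + L₀)) := by rw [Real.exp_add]; ring
        _ ≤ (R ^ 2) ^ n * (‖k 0‖ * Real.exp M') := by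
            gcongr
            rw [hM']; linarith
    exact le_of_mul_le_mul_left h7 h3
  have hnz : ‖(I * ((1000 * ρ : ℝ) : ℂ))‖ = 1000 * ρ := by
    rw [norm_mul, norm_I, one_mul, Complex.norm_real, Real.norm_eq_abs, abs_of_pos (by positivity)]
  have hkI := log_even hRpos hM'0 H.diff hke hk hbd (z := I * ((1000 * ρ : ℝ) : ℂ)) (by rw [hnz, hρR]; linarith)
  have hE : 16 * M' * ‖(I * ((1000 * ρ : ℝ) : ℂ))‖ ^ 2 / R ^ 2 = 16 * M' / 1000000 := by
    rw [hnz, hρR]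
    field_simp
    norm_num
  rw [hE] at hkI
  have hAρ : ∀ z : ℂ, ‖z‖ = 4 * ρ → ‖f z‖ ≤ Real.exp (4 * ρ * Real.log (4 * ρ)) := by
    intro z hz
    have := hup z (by rw [hz]; linarith)
    rw [hz] at this
    exact this
  have hmain := main_ineq H hρ hAρ hkI
  have hlo' := hlo (1000 * ρ) (by linarith)
  have hB : (1000001 : ℝ) ^ n ≤ Real.exp (14 * n) := by
    have h1 : (1000001 : ℝ) ≤ Real.exp 14 := by
      have h2 : (2.718 : ℝ) ≤ Real.exp 1 := by have := Real.exp_one_gt_d9; linarith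
      have h3 : Real.exp 14 = Real.exp 1 ^ 14 := by rw [← Real.exp_nat_mul]; norm_num
      rw [h3]
      refine le_trans ?_ (pow_le_pow_left₀ (by norm_num) h2 14)
      norm_num
    calc (1000001 : ℝ) ^ n ≤ Real.exp 14 ^ n := pow_le_pow_left₀ (by norm_num) h1 n
      _ = Real.exp (14 * n) := by rw [← Real.exp_nat_mul]; ring_nf
  have hfin : Real.exp (1000 * ρ / 5 * Real.log (1000 * ρ)) ≤
      Real.exp (14 * n + (4 * ρ * Real.log (4 * ρ) + 16 * M' / 1000000)) := by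
    refine hlo'.trans (hmain.trans ?_)
    rw [Real.exp_add, Real.exp_add]
    exact mul_le_mul_of_nonneg_right hB (by positivity)
  have hlin := Real.exp_le_exp.1 hfin
  set x := Real.log R with hx
  have hx50 : 50 ≤ x := by
    rw [hx, Real.le_log_iff_exp_le hRpos]
    exact r2
  have l1 : x - 7 ≤ Real.log (1000 * ρ) := by
    have h1 : (1000 : ℝ) ≤ Real.exp 7 := by
      have h2 : (2.7182 : ℝ) ≤ Real.exp 1 := by have := Real.exp_one_gt_d9; linarith
      have h3 : Real.exp 7 = Real.exp 1 ^ 7 := by rw [← Real.exp_nat_mul]; norm_num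
      rw [h3]
      refine le_trans ?_ (pow_le_pow_left₀ (by norm_num) h2 7)
      norm_num
    have h4 : Real.log 1000 ≤ 7 := by
      rw [Real.log_le_iff_le_exp (by norm_num)]
      exact h1
    have h5 : x = Real.log 1000 + Real.log (1000 * ρ) := by
      rw [← Real.log_mul (by norm_num) (by positivity), hx, hρR]
      congr 1
      ring
    linarith
  have l2 : Real.log (4 * ρ) ≤ x := Real.log_le_log (by positivity) (by rw [hρR]; linarith)
  have l3 : Real.log (4 * R) ≤ x + 2 := by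
    rw [Real.log_mul (by norm_num) hRpos.ne', ← hx]
    have h4 : Real.log 4 ≤ 2 := by
      rw [Real.log_le_iff_le_exp (by norm_num)]
      have h2 : (2.7 : ℝ) ≤ Real.exp 1 := by have := Real.exp_one_gt_d9; linarith
      have h3 : Real.exp 2 = Real.exp 1 ^ 2 := by rw [← Real.exp_nat_mul]; norm_num
      rw [h3]
      refine le_trans ?_ (pow_le_pow_left₀ (by norm_num) h2 2)
      norm_num
    linarith
  have m1 : R / 5000 * (x - 7) ≤ 1000 * ρ / 5 * Real.log (1000 * ρ) := by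
    have : R / 5000 = 1000 * ρ / 5 := by rw [hρR]; ring
    rw [this]
    exact mul_le_mul_of_nonneg_left l1 (by positivity)
  have m2 : 4 * ρ * Real.log (4 * ρ) ≤ 4 * R / 1000000 * x := by
    have : 4 * R / 1000000 = 4 * ρ := by rw [hρR]; ring
    rw [this]
    exact mul_le_mul_of_nonneg_left l2 (by positivity)
  have m3 : A ≤ 4 * R * (x + 2) := by
    rw [hA]
    exact mul_le_mul_of_nonneg_left l3 (by positivity)
  have m4 : 50 * R ≤ R * x := by nlinarith
  rw [hM'] at hlin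
  have m5 : 1 / 100000 * R * x = 1 / 100000 * (R * x) := by ring
  rw [m5]
  nlinarith

theorem Hd_even (t : ℝ) (z : ℂ) : J4H2.DN.Hd t (-z) = J4H2.DN.Hd t z := by
  unfold J4H2.DN.Hd
  congr 1
  funext u
  rw [neg_mul, Complex.cos_neg]

theorem t_T : J4H4.NG.S_T := by
  classical
  intro hGRO _
  refine ⟨1 / 100000, by norm_num, fun b hb => ?_⟩
  obtain ⟨R₀, hR₀, h1, h2, h3, h4⟩ := hGRO b hb
  obtain ⟨R₁, hR₁, hc⟩ := count h4 (Hd_even (-b)) h3 hR₀ h1 h2
  refine ⟨R₁, hR₁, fun R hR => ?_⟩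
  obtain ⟨s, k, H, hk, hn⟩ := hc R hR
  set f := J4H2.DN.Hd (-b) with hf
  set T : Multiset ℂ := s + s.map (fun a => -a) with hT
  set p : Polynomial ℂ := (T.map (fun a => Polynomial.X - Polynomial.C a)).prod with hp
  have hroots : p.roots = T := Polynomial.roots_multiset_prod_X_sub_C T
  have hp0 : p ≠ 0 := (Polynomial.monic_multiset_prod_of_monic T (fun a => Polynomial.X - Polynomial.C a)
    (fun a _ => Polynomial.monic_X_sub_C a)).ne_zero
  have hev : ∀ z, p.eval z = Pq s z := by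
    intro z
    rw [hp, Polynomial.eval_multiset_prod, Multiset.map_map, hT, Multiset.map_add, Multiset.prod_add, Multiset.map_map,
      ← Multiset.prod_map_mul]
    unfold Pq
    congr 1
    apply Multiset.map_congr rfl
    intro a _
    simp only [Function.comp, Polynomial.eval_sub, Polynomial.eval_X, Polynomial.eval_C]
    ring
  have hTR : ∀ z ∈ T, ‖z‖ < R := by
    intro z hz
    rw [hT, Multiset.mem_add, Multiset.mem_map] at hz
    rcases hz with hz | ⟨a, ha, rfl⟩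
    · exact H.rts z hz
    · rw [norm_neg]; exact H.rts a ha
  have hord : ∀ z ∈ T, analyticOrderNatAt f z = T.count z := by
    intro z hz
    have h5 := (J4H8.DNH.order_mul hp0 h4 H.diff (fun w => by rw [hev]; exact H.eq w) z).2 (hk z (hTR z hz))
    rw [hroots] at h5
    unfold analyticOrderNatAt
    rw [h5]
    simp
  refine ⟨T.toFinset, ?_, ?_⟩
  · intro z hz
    rw [Multiset.mem_toFinset] at hz
    refine ⟨?_, (hTR z hz).le⟩
    have h5 : p.eval z = 0 := by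
      have : z ∈ p.roots := by rw [hroots]; exact hz
      exact (Polynomial.mem_roots hp0).1 this
    rw [H.eq z, ← hev, h5, zero_mul]
  · have h5 : ∑ z ∈ T.toFinset, (analyticOrderNatAt f z : ℝ) = ((Multiset.card T : ℕ) : ℝ) := by
      rw [← Multiset.toFinset_sum_count_eq T]
      push_cast
      apply Finset.sum_congr rfl
      intro z hz
      rw [hord z (Multiset.mem_toFinset.1 hz)]
    rw [h5, hT, Multiset.card_add, Multiset.card_map]
    push_cast
    linarith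

end Pool.Agent.J4H8.NG
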